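import Mathlib
import Pool.Agent.H49.Step3

/-!
Real arithmetic: iterating the improvement step, and the passage from times to slopes.
-/

namespace Pool.Agent.H90.AK

open Pool.Agent.H49.Ent Finset

/-- If every good exponent in `[κ, 2]` can be improved by a fixed amount, then there is a good
exponent below `κ`. -/
theorem exists_good_of_step {κ ε : ℝ} (hε : 0 < ε)
    (hstep : ∀ a : ℝ, κ ≤ a → a ≤ 2 → Good a → ∃ b, b ≤ a - ε ∧ Good b) :
    ∃ a, a ≤ κ ∧ Good a := by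
  by_contra hcon
  push Not at hcon
  have hlow : ∀ a, Good a → κ < a := by
    intro a ha
    by_contra h
    exact hcon a (not_lt.mp h) ha
  have hbdd : BddBelow {a : ℝ | Good a} := ⟨κ, fun a ha => (hlow a ha).le⟩
  have hne : {a : ℝ | Good a}.Nonempty := ⟨2, good_two⟩
  obtain ⟨a, ha, hlt⟩ := exists_lt_of_csInf_lt hne
    (show sInf {a : ℝ | Good a} < sInf {a : ℝ | Good a} + ε by linarith)
  rcases le_or_gt a 2 with h2 | h2
  · obtain ⟨b, hb, hgb⟩ := hstep a (hlow a ha).le h2 ha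
    have := csInf_le hbdd hgb
    linarith
  · obtain ⟨b, hb, hgb⟩ := hstep 2 (hlow 2 good_two).le le_rfl good_two
    have := csInf_le hbdd hgb
    linarith

theorem pow_small {a : ℝ} (h1 : 1 ≤ a) (h2 : a ≤ 2) :
    (((a - 1) / a) ^ 2) ^ 20 ≤ 1 / 10 ^ 12 := by
  have h0 : 0 ≤ (a - 1) / a := div_nonneg (by linarith) (by linarith)
  have h01 : (a - 1) / a ≤ 1 / 2 := by
    rw [div_le_div_iff₀ (by linarith) (by norm_num)]; linarith
  have h3 : ((a - 1) / a) ^ 2 ≤ 1 / 4 := by nlinarith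
  calc (((a - 1) / a) ^ 2) ^ 20 ≤ (1 / 4) ^ 20 := pow_le_pow_left₀ (sq_nonneg _) h3 20
    _ ≤ 1 / 10 ^ 12 := by norm_num

theorem denF_pos {a ρ : ℝ} (ha : 1 < a) (hρ : 0 ≤ ρ) : 0 < denF a ρ := by
  unfold denF
  have hk : 0 ≤ 3 * a ^ 3 - 4 * a ^ 2 + 3 * a - 1 := by
    nlinarith [sq_nonneg (a - 1), mul_nonneg (sub_nonneg.mpr ha.le) (sq_nonneg a)]
  have t1 : 0 < 2 * a ^ 3 + 2 * a ^ 2 - 3 * a + 1 := by nlinarith [sq_nonneg (a - 1)]
  have t2 : 0 ≤ a * (a - 1) ^ 2 := mul_nonneg (by linarith) (sq_nonneg _)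
  have t3 : 0 ≤ (a ^ 2 + 4 * a - 2) / (2 * a - 1) :=
    div_nonneg (by nlinarith) (by linarith)
  have := mul_nonneg hk (mul_nonneg t3 hρ)
  linarith

/-- The exponent reached by the chain: slightly above the largest root `1.674626...` of
`3 a^5 + 9 a^4 - 39 a^3 + 31 a^2 - 9 a + 1`. -/
theorem step_poly {t η : ℝ} (ht : 0 ≤ t) (hη : η ≤ 1 / 10 ^ 12) :
    let a : ℝ := 167463 / 100000 + t
    (1 / 10 ^ 6) * ((2 * a - 1) * (5 * a ^ 3 + 2 * a ^ 2 - 5 * a + 2) +
        (3 * a ^ 3 - 4 * a ^ 2 + 3 * a - 1) * (a ^ 2 + 4 * a - 2)) +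
      η * ((3 * a ^ 3 - 4 * a ^ 2 + 3 * a - 1) * (a ^ 3 + a ^ 2 - 3 * a + 1)) ≤
      a * (3 * a ^ 5 + 9 * a ^ 4 - 39 * a ^ 3 + 31 * a ^ 2 - 9 * a + 1) := by
  intro a
  have hK : 0 ≤ (3 * a ^ 3 - 4 * a ^ 2 + 3 * a - 1) * (a ^ 3 + a ^ 2 - 3 * a + 1) := by
    have e : (3 * a ^ 3 - 4 * a ^ 2 + 3 * a - 1) * (a ^ 3 + a ^ 2 - 3 * a + 1) =
      (3 * (167463 / 100000 + t) ^ 3 - 4 * (167463 / 100000 + t) ^ 2 +
        3 * (167463 / 100000 + t) - 1) * ((167463 / 100000 + t) ^ 3 +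
        (167463 / 100000 + t) ^ 2 - 3 * (167463 / 100000 + t) + 1) := rfl
    rw [e]
    have e2 : 0 ≤ 3 * (167463 / 100000 + t) ^ 3 - 4 * (167463 / 100000 + t) ^ 2 +
        3 * (167463 / 100000 + t) - 1 := by
      have h2 := pow_nonneg ht 2
      have h3 := pow_nonneg ht 3
      ring_nf
      linarith
    have e3 : 0 ≤ (167463 / 100000 + t) ^ 3 +
        (167463 / 100000 + t) ^ 2 - 3 * (167463 / 100000 + t) + 1 := by
      have h2 := pow_nonneg ht 2
      have h3 := pow_nonneg ht 3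
      ring_nf
      linarith
    exact mul_nonneg e2 e3
  have h1 := mul_le_mul_of_nonneg_right hη hK
  refine (add_le_add_right h1 _).trans ?_
  have h2 := pow_nonneg ht 2
  have h3 := pow_nonneg ht 3
  have h4 := pow_nonneg ht 4
  have h5 := pow_nonneg ht 5
  have h6 := pow_nonneg ht 6
  simp only [a]
  ring_nf
  linarith

theorem step_le {a : ℝ} (h1 : 167463 / 100000 ≤ a) (h2 : a ≤ 2) :
    numF a (1 - (((a - 1) / a) ^ 2) ^ 20) / denF a (1 - (((a - 1) / a) ^ 2) ^ 20) ≤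
      a - 1 / 10 ^ 6 := by
  have hη := pow_small (by linarith : (1 : ℝ) ≤ a) h2
  have hη0 : 0 ≤ (((a - 1) / a) ^ 2) ^ 20 := pow_nonneg (sq_nonneg _) _
  generalize (((a - 1) / a) ^ 2) ^ 20 = η at *
  have hη1 : η ≤ 1 := hη.trans (by norm_num)
  have hD : 0 < denF a (1 - η) := denF_pos (by linarith) (by linarith)
  rw [div_le_iff₀ hD]
  have hp : 0 < 2 * a - 1 := by linarith
  have hp' : 2 * a - 1 ≠ 0 := hp.ne'
  have key := step_poly (t := a - 167463 / 100000) (η := η) (by linarith) hη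
  simp only [add_sub_cancel] at key
  have e : (a - 1 / 10 ^ 6) * denF a (1 - η) - numF a (1 - η) =
      (a * (3 * a ^ 5 + 9 * a ^ 4 - 39 * a ^ 3 + 31 * a ^ 2 - 9 * a + 1) -
      ((1 / 10 ^ 6) * ((2 * a - 1) * (5 * a ^ 3 + 2 * a ^ 2 - 5 * a + 2) +
        (3 * a ^ 3 - 4 * a ^ 2 + 3 * a - 1) * (a ^ 2 + 4 * a - 2)) +
      η * ((3 * a ^ 3 - 4 * a ^ 2 + 3 * a - 1) * (a ^ 3 + a ^ 2 - 3 * a + 1))) +
      η * ((1 / 10 ^ 6) * ((3 * a ^ 3 - 4 * a ^ 2 + 3 * a - 1) *
        (a ^ 2 + 4 * a - 2)))) / (2 * a - 1) := by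
    rw [eq_div_iff hp']
    unfold numF denF
    have hU : (3 * a ^ 2 + a - 1) / (2 * a - 1) * (2 * a - 1) = 3 * a ^ 2 + a - 1 :=
      div_mul_cancel₀ _ hp'
    have hV : (a ^ 2 + 4 * a - 2) / (2 * a - 1) * (2 * a - 1) = a ^ 2 + 4 * a - 2 :=
      div_mul_cancel₀ _ hp'
    generalize (3 * a ^ 2 + a - 1) / (2 * a - 1) = U at *
    generalize (a ^ 2 + 4 * a - 2) / (2 * a - 1) = V at *
    linear_combination ((a - 1 / 10 ^ 6) * (3 * a ^ 3 - 4 * a ^ 2 + 3 * a - 1) * (1 - η)) * hV -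
      ((3 * a ^ 3 - 4 * a ^ 2 + 3 * a - 1) * (1 - η)) * hU
  have hk : 0 ≤ 3 * a ^ 3 - 4 * a ^ 2 + 3 * a - 1 := by
    nlinarith [sq_nonneg (a - 1), mul_nonneg (by linarith : 0 ≤ a - 1) (sq_nonneg a)]
  have h3 : 0 ≤ η * ((1 / 10 ^ 6) * ((3 * a ^ 3 - 4 * a ^ 2 + 3 * a - 1) *
        (a ^ 2 + 4 * a - 2))) :=
    mul_nonneg hη0 (mul_nonneg (by norm_num) (mul_nonneg hk (by nlinarith)))
  have h4 : 0 ≤ (a - 1 / 10 ^ 6) * denF a (1 - η) - numF a (1 - η) := by
    rw [e]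
    exact div_nonneg (by linarith) hp.le
  linarith

/-- There is a good exponent at most `1.67463`. -/
theorem exists_good : ∃ a, a ≤ (167463 / 100000 : ℝ) ∧ Good a :=
  exists_good_of_step (ε := 1 / 10 ^ 6) (by norm_num) (fun a h1 h2 hg =>
    ⟨_, step_le h1 h2, improve hg (by linarith) 20⟩)

/-- From times to slopes. -/
theorem slopes_of_good {a c : ℝ} (hgood : Good a) (hac : a ≤ c) :
    ∃ S : Finset ℚ, (-1 : ℚ) ∉ S ∧
      ∀ A : Finset (ℤ × ℤ),
        ((A.image (fun p : ℤ × ℤ => (p.1 : ℚ) + (-1) * (p.2 : ℚ))).card : ℝ) ≤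
          (max ((A.image (fun p : ℤ × ℤ => (p.2 : ℚ))).card : ℝ)
              ((S.sup (fun r : ℚ =>
                  (A.image (fun p : ℤ × ℤ => (p.1 : ℚ) + r * (p.2 : ℚ))).card) : ℕ) : ℝ))
            ^ c := by
  classical
  obtain ⟨T, w, hw, hsum, hAK⟩ := hgood
  refine ⟨(T.erase 0).image (fun t => t⁻¹ - 1), ?_, fun A => ?_⟩
  · intro h
    obtain ⟨t, ht, h⟩ := Finset.mem_image.mp h
    have h0 : t ≠ 0 := (Finset.mem_erase.mp ht).1
    have : t⁻¹ = 0 := by linarith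
    exact h0 (inv_eq_zero.mp this)
  · rcases A.eq_empty_or_nonempty with rfl | hA
    · simp only [Finset.image_empty, Finset.card_empty, Nat.cast_zero]
      positivity
    · obtain ⟨N, hN⟩ : ∃ N : ℝ, N = max ((A.image (fun p : ℤ × ℤ => (p.2 : ℚ))).card : ℝ)
          ((((T.erase 0).image (fun t => t⁻¹ - 1)).sup (fun r : ℚ =>
            (A.image (fun p : ℤ × ℤ => (p.1 : ℚ) + r * (p.2 : ℚ))).card) : ℕ) : ℝ) := ⟨_, rfl⟩
      rw [← hN]
      have hN1 : 1 ≤ N := by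
        rw [hN]
        refine le_max_of_le_left ?_
        exact_mod_cast Finset.card_pos.mpr (hA.image _)
      have : Nonempty A := ⟨⟨_, hA.choose_spec⟩⟩
      have h1 := card_le_of_AKW hw hsum hAK (A := A)
        (fun p => ((p.1.2 : ℤ) : ℚ)) (fun p => ((p.1.1 : ℤ) : ℚ) + (-1) * ((p.1.2 : ℤ) : ℚ)) N
        (fun t ht => ?_)
      · have e : (univ.image (fun p : A => ((p.1.1 : ℤ) : ℚ) + (-1) * ((p.1.2 : ℤ) : ℚ))) =
            A.image (fun p : ℤ × ℤ => (p.1 : ℚ) + (-1) * (p.2 : ℚ)) := by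
          ext z
          simp only [Finset.mem_image, Finset.mem_univ, true_and, Subtype.exists,
            exists_prop]
        rw [e] at h1
        exact h1.trans (Real.rpow_le_rpow_of_exponent_le hN1 hac)
      · by_cases h0 : t = 0
        · subst h0
          have e : (univ.image (fun p : A => ((p.1.2 : ℤ) : ℚ) +
              0 * (((p.1.1 : ℤ) : ℚ) + (-1) * ((p.1.2 : ℤ) : ℚ)))) =
              A.image (fun p : ℤ × ℤ => (p.2 : ℚ)) := by
            ext z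
            simp only [Finset.mem_image, Finset.mem_univ, true_and, Subtype.exists,
              exists_prop, zero_mul, add_zero]
          rw [e, hN]
          exact le_max_left _ _
        · have hm : t⁻¹ - 1 ∈ (T.erase 0).image (fun t => t⁻¹ - 1) :=
            Finset.mem_image_of_mem (fun t : ℚ => t⁻¹ - 1) (Finset.mem_erase.mpr ⟨h0, ht⟩)
          have e : (univ.image (fun p : A => ((p.1.2 : ℤ) : ℚ) +
              t * (((p.1.1 : ℤ) : ℚ) + (-1) * ((p.1.2 : ℤ) : ℚ)))) =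
              (A.image (fun p : ℤ × ℤ => (p.1 : ℚ) + (t⁻¹ - 1) * (p.2 : ℚ))).image
                (fun z => t * z) := by
            ext z
            simp only [Finset.mem_image, Finset.mem_univ, true_and, Subtype.exists,
              exists_prop]
            constructor
            · rintro ⟨p, hp, rfl⟩
              refine ⟨_, ⟨p, hp, rfl⟩, ?_⟩
              field_simp
              ring
            · rintro ⟨_, ⟨p, hp, rfl⟩, rfl⟩
              refine ⟨p, hp, ?_⟩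
              field_simp
              ring
          rw [e, Finset.card_image_of_injective _ (mul_right_injective₀ h0), hN]
          refine le_max_of_le_right ?_
          have := Finset.le_sup (f := fun r : ℚ =>
            (A.image (fun p : ℤ × ℤ => (p.1 : ℚ) + r * (p.2 : ℚ))).card) hm
          exact_mod_cast this

end Pool.Agent.H90.AK
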