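import Mathlib
import Pool.Agent.H49.Step3b
import Pool.Agent.H90.AK.Exponent

/-!
Real arithmetic for the second improvement step: a good exponent at most `1.67377`.
-/

namespace Pool.Agent.H90.AK

open Pool.Agent.H49.Ent Finset

/-- the contraction ratio -/
theorem ratio_le {a : ℝ} (h1 : 167377 / 100000 ≤ a) (h2 : a ≤ 2) :
    0 ≤ (a - 1) * (C2 a - C1 a) / (a * C2 a) ∧
      (a - 1) * (C2 a - C1 a) / (a * C2 a) ≤ 1 / 4 := by
  obtain ⟨t, rfl⟩ : ∃ t, a = 167377 / 100000 + t := ⟨a - 167377 / 100000, by ring⟩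
  have ht : 0 ≤ t := by linarith
  have ht2 : t ≤ 1 / 3 := by linarith
  have hC2 : 0 < C2 (167377 / 100000 + t) := by
    unfold C2
    have p2 := pow_nonneg ht 2
    have p3 := pow_nonneg ht 3
    ring_nf
    linarith
  have hd : 0 < C2 (167377 / 100000 + t) - C1 (167377 / 100000 + t) := by
    unfold C1 C2
    have p2 := pow_nonneg ht 2
    have p3 := pow_nonneg ht 3
    ring_nf
    linarith
  refine ⟨div_nonneg (mul_nonneg (by linarith) hd.le) (mul_nonneg (by linarith) hC2.le), ?_⟩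
  rw [div_le_div_iff₀ (mul_pos (by linarith) hC2) (by norm_num)]
  have p2 : t ^ 2 ≤ 1 / 3 * t := by nlinarith
  have p3 : t ^ 3 ≤ 1 / 9 * t := by nlinarith [pow_nonneg ht 2]
  have p4 : t ^ 4 ≤ 1 / 27 * t := by nlinarith [pow_nonneg ht 2, pow_nonneg ht 3]
  unfold C1 C2
  ring_nf
  linarith

theorem step2_poly {t : ℝ} (ht : 0 ≤ t) :
    let a : ℝ := 167377 / 100000 + t
    (-11 * a ^ 5 + 21 * a ^ 4 + 4 * a ^ 3 - 21 * a ^ 2 + 13 * a - 2) +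
      (1 / 10 ^ 6) * (11 * a ^ 4 + 2 * a ^ 3 - 15 * a ^ 2 + 11 * a - 2) +
      (1 / 10 ^ 12) * (a * (11 * a ^ 4 + 2 * a ^ 3 - 15 * a ^ 2 + 11 * a - 2) -
        (17 * a ^ 4 - 21 * a ^ 3 + 10 * a ^ 2 - a)) ≤ 0 := by
  intro a
  have h2 := pow_nonneg ht 2
  have h3 := pow_nonneg ht 3
  have h4 := pow_nonneg ht 4
  have h5 := pow_nonneg ht 5
  simp only [a]
  ring_nf
  linarith

theorem step2_pos {t : ℝ} (ht : 0 ≤ t) :
    let a : ℝ := 167377 / 100000 + t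
    0 < 11 * a ^ 4 + 2 * a ^ 3 - 15 * a ^ 2 + 11 * a - 2 ∧
    0 < a * (11 * a ^ 4 + 2 * a ^ 3 - 15 * a ^ 2 + 11 * a - 2) -
        (17 * a ^ 4 - 21 * a ^ 3 + 10 * a ^ 2 - a) ∧ 0 < 3 * a ^ 4 + 5 * a ^ 3 - 10 * a ^ 2 +
          6 * a - 1 := by
  intro a
  have h2 := pow_nonneg ht 2
  have h3 := pow_nonneg ht 3
  have h4 := pow_nonneg ht 4
  have h5 := pow_nonneg ht 5
  simp only [a]
  refine ⟨?_, ?_, ?_⟩
  · ring_nf
    linarith
  · ring_nf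
    linarith
  · ring_nf
    linarith

theorem step2 {a : ℝ} (h1 : 167377 / 100000 ≤ a) (h2 : a ≤ 2) (hg : Good a) :
    ∃ b, b ≤ a - 1 / 10 ^ 6 ∧ Good b := by
  obtain ⟨hq0, hq1⟩ := ratio_le h1 h2
  have hη0 : 0 ≤ ((a - 1) * (C2 a - C1 a) / (a * C2 a)) ^ 20 := pow_nonneg hq0 _
  have hη : ((a - 1) * (C2 a - C1 a) / (a * C2 a)) ^ 20 ≤ 1 / 10 ^ 12 :=
    (pow_le_pow_left₀ hq0 hq1 20).trans (by norm_num)
  have hL := LBM_iter hg (by linarith : 1 < a) 20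
  generalize ((a - 1) * (C2 a - C1 a) / (a * C2 a)) ^ 20 = η at *
  have key := step2_poly (t := a - 167377 / 100000) (by linarith)
  obtain ⟨k1, k2, k3⟩ := step2_pos (t := a - 167377 / 100000) (by linarith)
  simp only [add_sub_cancel] at key k1 k2 k3
  have eD : DD a = 3 * a ^ 4 + 5 * a ^ 3 - 10 * a ^ 2 + 6 * a - 1 := by
    unfold DD C1 C2; ring
  have eA : a * (2 * C1 a + a * (a - 1) ^ 2) + (C2 a - C1 a) * (a + 2) =
      11 * a ^ 4 + 2 * a ^ 3 - 15 * a ^ 2 + 11 * a - 2 := by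
    unfold C1 C2; ring
  have eB : a * (2 * a * (a - 1) ^ 2 + C1 a) + (C2 a - C1 a) * (3 * a) =
      17 * a ^ 4 - 21 * a ^ 3 + 10 * a ^ 2 - a := by
    unfold C1 C2; ring
  rw [eA, eB, eD] at hL
  have eP : 2 * (3 * a ^ 4 + 5 * a ^ 3 - 10 * a ^ 2 + 6 * a - 1) +
      ((17 * a ^ 4 - 21 * a ^ 3 + 10 * a ^ 2 - a) -
        a * (11 * a ^ 4 + 2 * a ^ 3 - 15 * a ^ 2 + 11 * a - 2)) =
      -11 * a ^ 5 + 21 * a ^ 4 + 4 * a ^ 3 - 21 * a ^ 2 + 13 * a - 2 := by ring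
  rw [← eP] at key
  generalize 11 * a ^ 4 + 2 * a ^ 3 - 15 * a ^ 2 + 11 * a - 2 = A at *
  generalize 17 * a ^ 4 - 21 * a ^ 3 + 10 * a ^ 2 - a = B at *
  generalize 3 * a ^ 4 + 5 * a ^ 3 - 10 * a ^ 2 + 6 * a - 1 = D at *
  have hη1 : 0 < 1 - η := by
    have : η ≤ 1 / 2 := hη.trans (by norm_num)
    linarith
  have hpos : 0 < A / D * (1 - η) := mul_pos (div_pos k1 k3) hη1
  refine ⟨_, ?_, hL.good hpos⟩
  rw [div_le_iff₀ hpos]
  have e1 : (a - 1 / 10 ^ 6) * (A / D * (1 - η)) - (B / D * (1 - η) + 2) =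
      ((a - 1 / 10 ^ 6) * (A * (1 - η)) - (B * (1 - η) + 2 * D)) / D := by
    field_simp
  have e2 : 0 ≤ (a - 1 / 10 ^ 6) * (A * (1 - η)) - (B * (1 - η) + 2 * D) := by
    have m1 := mul_le_mul_of_nonneg_right hη k2.le
    have m2 : 0 ≤ (1 / 10 ^ 6) * A * η := by positivity
    nlinarith
  have e3 := div_nonneg e2 k3.le
  rw [← e1] at e3
  linarith

/-- There is a good exponent at most `1.67377`. -/
theorem exists_good2 : ∃ a, a ≤ (167377 / 100000 : ℝ) ∧ Good a :=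
  exists_good_of_step (ε := 1 / 10 ^ 6) (by norm_num) (fun _ h1 h2 hg => step2 h1 h2 hg)

end Pool.Agent.H90.AK
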